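import Pool.Agent.Helper91_CW.Mods
import Pool.Agent.Helper91_CW.Alg

/-! # Basic facts on expectations over random words -/

set_option autoImplicit false

namespace Pool.Agent.Helper14_CW

open Equiv Pool.Agent.Helper91_CW

section
variable {H : Type} [Fintype H] [DecidableEq H]

theorem Ex_map {M M' : Type} [AddCommMonoid M] [Module ℝ M] [AddCommMonoid M'] [Module ℝ M']
    (L : M →ₗ[ℝ] M') (p : Sy H → ℝ) (t : ℕ) (F : List (Sy H) → M) :
    L (Ex p t F) = Ex p t (fun ω => L (F ω)) := by
  induction t generalizing F with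
  | zero => rfl
  | succ t ih =>
    simp only [Ex, map_sum, map_smul, ih]

theorem Ex_add {M : Type} [AddCommMonoid M] [Module ℝ M]
    (p : Sy H → ℝ) (t : ℕ) (F G : List (Sy H) → M) :
    Ex p t (fun ω => F ω + G ω) = Ex p t F + Ex p t G := by
  induction t generalizing F G with
  | zero => rfl
  | succ t ih =>
    simp only [Ex, ih, smul_add, Finset.sum_add_distrib]

theorem Ex_sub {M : Type} [AddCommGroup M] [Module ℝ M]
    (p : Sy H → ℝ) (t : ℕ) (F G : List (Sy H) → M) :
    Ex p t (fun ω => F ω - G ω) = Ex p t F - Ex p t G := by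
  induction t generalizing F G with
  | zero => rfl
  | succ t ih =>
    simp only [Ex, ih, smul_sub, Finset.sum_sub_distrib]

theorem Ex_zero {M : Type} [AddCommMonoid M] [Module ℝ M] (p : Sy H → ℝ) (t : ℕ) :
    Ex p t (fun _ => (0 : M)) = 0 := by
  induction t with
  | zero => rfl
  | succ t ih => simp only [Ex, ih, smul_zero, Finset.sum_const_zero]

theorem Ex_sum {M ι : Type} [AddCommMonoid M] [Module ℝ M]
    (p : Sy H → ℝ) (t : ℕ) (s : Finset ι) (F : ι → List (Sy H) → M) :
    Ex p t (fun ω => ∑ i ∈ s, F i ω) = ∑ i ∈ s, Ex p t (F i) := by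
  classical
  induction s using Finset.induction_on with
  | empty => simp only [Finset.sum_empty, Ex_zero]
  | insert a s ha ih =>
    simp only [Finset.sum_insert ha]
    rw [Ex_add, ih]

theorem Ex_smul {M : Type} [AddCommMonoid M] [Module ℝ M]
    (p : Sy H → ℝ) (t : ℕ) (c : ℝ) (F : List (Sy H) → M) :
    Ex p t (fun ω => c • F ω) = c • Ex p t F := by
  have := Ex_map (LinearMap.lsmul ℝ M c) p t F
  simpa using this.symm

theorem Ex_mono (p : Sy H → ℝ) (hp : ∀ α, 0 ≤ p α) (t : ℕ) (F G : List (Sy H) → ℝ)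
    (hFG : ∀ ω, F ω ≤ G ω) : Ex p t F ≤ Ex p t G := by
  induction t generalizing F G with
  | zero => exact hFG _
  | succ t ih =>
    simp only [Ex]
    apply Finset.sum_le_sum
    intro α _
    exact mul_le_mul_of_nonneg_left (ih _ _ (fun ω => hFG _)) (hp α)

theorem nrm_Ex_le {G : Type} [Fintype G] (p : Sy H → ℝ) (hp : ∀ α, 0 ≤ p α) (t : ℕ)
    (F : List (Sy H) → Alg G) : nrm (Ex p t F) ≤ Ex p t (fun ω => nrm (F ω)) := by
  induction t generalizing F with
  | zero => exact le_rfl
  | succ t ih =>
    simp only [Ex]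
    refine (nrm_sum_le _ _).trans (Finset.sum_le_sum (fun α _ => ?_))
    rw [nrm_smul, abs_of_nonneg (hp α)]
    exact mul_le_mul_of_nonneg_left (ih _) (hp α)

theorem Ex_time {M : Type} [AddCommMonoid M] [Module ℝ M]
    (p : Sy H → ℝ) (t1 t2 : ℕ) (F : List (Sy H) → M) :
    Ex p (t1 + t2) F = Ex p t1 (fun ω1 => Ex p t2 (fun ω2 => F (ω1 ++ ω2))) := by
  induction t1 generalizing F with
  | zero => simp only [zero_add, Ex, List.nil_append]
  | succ t ih =>
    rw [Nat.succ_add]
    simp only [Ex, ih, List.cons_append]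

theorem tr_append (ω1 ω2 : List (Sy H)) (x : H) :
    tr (ω1 ++ ω2) x = (tr ω1 x).bind (tr ω2) := by
  induction ω1 generalizing x with
  | nil => rfl
  | cons α ω ih =>
    simp only [List.cons_append, tr]
    cases h : act α x with
    | none => rfl
    | some y => simp only [Option.bind_some, ih]

theorem Ex_tr (p : Sy H → ℝ) (t : ℕ) (f : H → ℝ) (x : H) :
    Ex p t (fun ω => (tr ω x).elim 0 f) = Kit p t f x := by
  induction t generalizing x with
  | zero => rfl
  | succ t ih =>
    unfold Kit at ih ⊢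
    rw [Function.iterate_succ_apply']
    simp only [Ex, tr, Kop]
    refine Finset.sum_congr rfl (fun α _ => ?_)
    rw [smul_eq_mul]
    congr 1
    cases h : act α x with
    | none => simp only [Option.bind_none, Option.elim_none]; exact Ex_zero p t
    | some y => simp only [Option.bind_some, Option.elim_some, ih]

theorem act_symm (α : Sy H) (f g : H → ℝ) :
    ∑ x, f x * (act α x).elim 0 g = ∑ x, (act α x).elim 0 f * g x := by
  rcases α with _ | ⟨a, b⟩ | v
  · simp [act]
  · simp only [act, Option.elim_some]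
    rw [← Equiv.sum_comp (swap a b)]
    simp
  · refine Finset.sum_congr rfl (fun x _ => ?_)
    simp only [act]
    split_ifs <;> simp

theorem Kop_symm (p : Sy H → ℝ) (f g : H → ℝ) :
    ∑ x, f x * Kop p g x = ∑ x, Kop p f x * g x := by
  simp only [Kop, Finset.mul_sum, Finset.sum_mul]
  rw [Finset.sum_comm]
  conv_rhs => rw [Finset.sum_comm]
  refine Finset.sum_congr rfl (fun α _ => ?_)
  have h := act_symm α f g
  have e1 : ∑ x, f x * (p α * (act α x).elim 0 g) = p α * ∑ x, f x * (act α x).elim 0 g := by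
    rw [Finset.mul_sum]; exact Finset.sum_congr rfl (fun x _ => by ring)
  have e2 : ∑ x, p α * (act α x).elim 0 f * g x = p α * ∑ x, (act α x).elim 0 f * g x := by
    rw [Finset.mul_sum]; exact Finset.sum_congr rfl (fun x _ => by ring)
  rw [e1, e2, h]

theorem Kit_symm (p : Sy H → ℝ) (t : ℕ) (f g : H → ℝ) :
    ∑ x, f x * Kit p t g x = ∑ x, Kit p t f x * g x := by
  induction t generalizing f g with
  | zero => rfl
  | succ t ih =>
    have h1 : Kit p (t + 1) g = Kop p (Kit p t g) := Function.iterate_succ_apply' _ _ _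
    have h2 : Kit p (t + 1) f = Kit p t (Kop p f) := Function.iterate_succ_apply _ _ _
    rw [h1, h2, Kop_symm, ih]

theorem Kit_nonneg (p : Sy H → ℝ) (hp : ∀ α, 0 ≤ p α) (t : ℕ) (f : H → ℝ) (hf : ∀ x, 0 ≤ f x)
    (x : H) : 0 ≤ Kit p t f x := by
  induction t generalizing x with
  | zero => exact hf x
  | succ t ih =>
    have h1 : Kit p (t + 1) f = Kop p (Kit p t f) := Function.iterate_succ_apply' _ _ _
    rw [h1]
    unfold Kop
    refine Finset.sum_nonneg (fun α _ => mul_nonneg (hp α) ?_)
    cases act α x with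
    | none => simp
    | some y => exact ih y

end

end Pool.Agent.Helper14_CW
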