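import Pool.Agent.Helper14_CW.Base

/-! # Module HALF of the squad of helper91 for MP_1dbb29_pr -/

set_option autoImplicit false

namespace Pool.Agent.Helper14_CW

open Equiv Pool.Agent.Helper91_CW

section
variable {H : Type} [Fintype H] [DecidableEq H]

theorem ainv (g : Perm H) (x : H) : g (g⁻¹ x) = x := g.apply_symm_apply x

theorem inva (g : Perm H) (x : H) : g⁻¹ (g x) = x := g.symm_apply_apply x

theorem smap_mul (g h : Perm H) (α : Sy H) : smap (g * h) α = smap g (smap h α) := by
  rcases α with _ | ⟨a, b⟩ | v <;> rfl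

theorem smap_one (α : Sy H) : smap (1 : Perm H) α = α := by
  rcases α with _ | ⟨a, b⟩ | v <;> rfl

theorem act_smap (g : Perm H) (α : Sy H) (x : H) :
    act (smap g α) x = (act α (g⁻¹ x)).map g := by
  rcases α with _ | ⟨a, b⟩ | v
  · simp [act, smap]
  · simp only [act, smap, Option.map_some]
    rw [Equiv.swap_apply_apply]
    simp [Perm.mul_apply]
  · simp only [act, smap]
    by_cases h : x = g v
    · subst h; rw [inva]; simp
    · have h' : g⁻¹ x ≠ v := by
        intro h2; exact h (by rw [← h2, ainv])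
      rw [if_neg h, if_neg h', Option.map_some, ainv]

theorem tr_smap (g : Perm H) (ω : List (Sy H)) (x : H) :
    tr (ω.map (smap g)) x = (tr ω (g⁻¹ x)).map g := by
  induction ω generalizing x with
  | nil => simp [tr]
  | cons α ω ih =>
    simp only [List.map_cons, tr, act_smap]
    cases h : act α (g⁻¹ x) with
    | none => rfl
    | some y => simp [ih]

/-- `smap g` as a permutation of the letters -/
def smapE (g : Perm H) : Sy H ≃ Sy H where
  toFun := smap g
  invFun := smap g⁻¹
  left_inv α := by rw [← smap_mul, inv_mul_cancel, smap_one]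
  right_inv α := by rw [← smap_mul, mul_inv_cancel, smap_one]

theorem Ex_smap {M : Type} [AddCommMonoid M] [Module ℝ M] (p : Sy H → ℝ) (g : Perm H)
    (hg : ∀ α, p (smap g α) = p α) (t : ℕ) (F : List (Sy H) → M) :
    Ex p t F = Ex p t (fun ω => F (ω.map (smap g))) := by
  induction t generalizing F with
  | zero => rfl
  | succ t ih =>
    simp only [Ex]
    rw [← Equiv.sum_comp (smapE g)]
    refine Finset.sum_congr rfl (fun α _ => ?_)
    show p (smap g α) • Ex p t (fun ω => F (smap g α :: ω)) = _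
    rw [hg, ih]
    rfl

theorem mem_GLv (lv : H → ℕ) (Up : Finset H) (g : Perm H) :
    g ∈ GLv lv Up ↔ (∀ x, x ∉ Up → g x = x) ∧ ∀ x, lv (g x) = lv x := by
  simp [GLv]

theorem GLv_one (lv : H → ℕ) (Up : Finset H) : (1 : Perm H) ∈ GLv lv Up := by
  rw [mem_GLv]; simp

theorem GLv_inv (lv : H → ℕ) (Up : Finset H) (g : Perm H) (hg : g ∈ GLv lv Up) :
    g⁻¹ ∈ GLv lv Up := by
  rw [mem_GLv] at hg ⊢
  refine ⟨fun x hx => ?_, fun x => ?_⟩
  · rw [Perm.inv_eq_iff_eq, hg.1 x hx]
  · have := hg.2 (g⁻¹ x)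
    rw [ainv] at this
    exact this.symm

theorem p_inv (p : Sy H → ℝ) (lv : H → ℕ) (Up : Finset H)
    (hinv : ∀ x ∈ Up, ∀ x' ∈ Up, lv x = lv x' → ∀ α, p (smap (swap x x') α) = p α)
    (g : Perm H) (hg : g ∈ GLv lv Up) (α : Sy H) : p (smap g α) = p α := by
  induction hn : g.support.card using Nat.strong_induction_on generalizing g α with
  | _ n ih =>
    by_cases h1 : ∀ x, g x = x
    · have : g = 1 := Equiv.ext h1
      rw [this, smap_one]
    · push Not at h1
      obtain ⟨x, hx⟩ := h1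
      have hg' := (mem_GLv lv Up g).1 hg
      have hxU : x ∈ Up := by
        by_contra hcon; exact hx (hg'.1 x hcon)
      have hgxU : g x ∈ Up := by
        by_contra hcon
        have := hg'.1 (g x) hcon
        exact hx (g.injective this)
      have hlt : (swap x (g x) * g).support.card < n := by
        rw [← hn]; exact Perm.card_support_swap_mul hx
      have hmem : swap x (g x) * g ∈ GLv lv Up := by
        rw [mem_GLv]
        refine ⟨fun z hz => ?_, fun z => ?_⟩
        · rw [Perm.mul_apply, hg'.1 z hz]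
          apply Equiv.swap_apply_of_ne_of_ne
          · rintro rfl; exact hz hxU
          · rintro rfl; exact hz hgxU
        · rw [Perm.mul_apply, ← hg'.2 z]
          by_cases e1 : g z = x
          · rw [e1, swap_apply_left, hg'.2 x]
          · by_cases e2 : g z = g x
            · rw [e2, swap_apply_right, hg'.2 x]
            · rw [swap_apply_of_ne_of_ne e1 e2]
      have hrec := ih _ hlt (swap x (g x) * g) hmem α rfl
      have hdec : g = swap x (g x) * (swap x (g x) * g) := by
        rw [← mul_assoc, swap_mul_self, one_mul]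
      rw [hdec, smap_mul, hinv x hxU (g x) hgxU (hg'.2 x).symm, hrec]

variable {B : Type} [Fintype B] [DecidableEq B]

theorem nrm_unif_le {G : Type} [Fintype G] [Group G] (S : Finset G) :
    nrm (unif S) ≤ 1 := by
  classical
  unfold unif
  rw [nrm_smul, abs_of_nonneg (by positivity)]
  have h1 : nrm (∑ g ∈ S, pt g) ≤ S.card := by
    refine (nrm_sum_le _ _).trans ?_
    simp [nrm_pt]
  have h0 : (0 : ℝ) ≤ (S.card : ℝ)⁻¹ := by positivity
  calc (S.card : ℝ)⁻¹ * nrm (∑ g ∈ S, pt g) ≤ (S.card : ℝ)⁻¹ * S.card :=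
        mul_le_mul_of_nonneg_left h1 h0
    _ ≤ 1 := by
        by_cases hS : (S.card : ℝ) = 0
        · rw [hS]; simp
        · rw [inv_mul_cancel₀ hS]

theorem nrm_US_le (S : H → Option H) : nrm (US B S) ≤ 1 := nrm_unif_le _

theorem mem_ext (S : H → Option H) (σ : PV H B) :
    σ ∈ ext B S ↔ ∀ x y, S x = some y → σ (Sum.inl x) = Sum.inl y := by
  unfold Helper91_CW.ext
  rw [Finset.mem_filter]
  simp

theorem US_conj (S : H → Option H) (g h : Perm H) :
    pt (Perm.sumCongr g (1 : Perm B)) * US B S * pt (Perm.sumCongr h (1 : Perm B)) =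
      US B (fun x => (S (h x)).map g) := by
  unfold US unif
  set a : PV H B := Perm.sumCongr g (1 : Perm B) with ha
  set b : PV H B := Perm.sumCongr h (1 : Perm B) with hb
  let e : PV H B ≃ PV H B := (Equiv.mulLeft a).trans (Equiv.mulRight b)
  have hmem : ∀ σ : PV H B, σ ∈ ext B S ↔ e σ ∈ ext B (fun x => (S (h x)).map g) := by
    intro σ
    rw [mem_ext, mem_ext]
    have he : ∀ x : H, (e σ) (Sum.inl x) = a (σ (Sum.inl (h x))) := fun x => rfl
    constructor
    · intro hs x y hxy
      rw [Option.map_eq_some_iff] at hxy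
      obtain ⟨y', hy', rfl⟩ := hxy
      rw [he, hs _ _ hy']
      rfl
    · intro hs x y hxy
      have h1 := hs (h⁻¹ x) (g y) (by rw [ainv, hxy]; rfl)
      rw [he, ainv] at h1
      have h2 : a (Sum.inl y) = Sum.inl (g y) := rfl
      rw [← h2] at h1
      exact a.injective h1
  rw [mul_smul_comm, smul_mul_assoc, Finset.mul_sum, Finset.sum_mul,
    Finset.card_equiv e hmem]
  congr 1
  refine Finset.sum_equiv e hmem (fun σ _ => ?_)
  rw [pt_mul_pt, pt_mul_pt]
  rfl

end

/-- Module HALF. -/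
theorem half : HalfStatement := by
  intro H B _ _ _ _ hB p hp hp1 lv Up hinv t1 t2
  set K := GLv lv Up with hK
  have hpK : ∀ g ∈ K, ∀ α, p (smap g α) = p α := fun g hg α => p_inv p lv Up hinv g hg α
  have hKinv : ∀ g ∈ K, g⁻¹ ∈ K := fun g hg => GLv_inv lv Up g hg
  have hKpos : 0 < K.card := Finset.card_pos.2 ⟨1, GLv_one lv Up⟩
  have hKit : ∀ g ∈ K, ∀ t x, Kit p t (fun _ => 1) (g x) = Kit p t (fun _ => 1) x := by
    intro g hg t x
    rw [← Ex_tr p t (fun _ => 1) (g x), Ex_smap p g (hpK g hg) t, ← Ex_tr p t (fun _ => 1) x]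
    congr 1
    funext ω
    rw [tr_smap, inva]
    cases tr ω x <;> rfl
  set L := Ex p (t1 + t2) (fun ω => US B (tr ω)) with hL
  set bound : ℝ := 2 * ∑ z ∈ Up, Kit p t1 (fun _ => 1) z * Kit p t2 (fun _ => 1) z with hbound
  -- the comparison for each pair
  have key : ∀ g ∈ K, ∀ h ∈ K, nrm (L - Ex p t1 (fun ω1 => Ex p t2 (fun ω2 =>
      US B (fun x => (compLow Up (tr ω1) (tr ω2) (h x)).map g)))) ≤ bound := by
    intro g hg h hh
    have hL2 : L = Ex p t1 (fun ω1 => Ex p t2 (fun ω2 =>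
        US B (fun x => ((tr ω1 (h x)).map ⇑(h⁻¹)).bind (fun z => (tr ω2 (g⁻¹ z)).map g)))) := by
      rw [hL, Ex_time, Ex_smap p h⁻¹ (hpK _ (hKinv h hh)) t1]
      congr 1
      funext ω1
      rw [Ex_smap p g (hpK g hg) t2]
      congr 1
      funext ω2
      congr 1
      funext x
      rw [tr_append, tr_smap, inv_inv]
      congr 1
      funext z
      rw [tr_smap]
    rw [hL2, ← Ex_sub]
    simp only [← Ex_sub]
    refine (nrm_Ex_le p hp t1 _).trans ?_
    refine (Ex_mono p hp t1 _ _ (fun ω1 => nrm_Ex_le p hp t2 _)).trans ?_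
    have hpt : ∀ ω1 ω2 : List (Sy H),
        nrm (US B (fun x => ((tr ω1 (h x)).map ⇑(h⁻¹)).bind (fun z => (tr ω2 (g⁻¹ z)).map g)) -
          US B (fun x => (compLow Up (tr ω1) (tr ω2) (h x)).map g)) ≤
        ∑ z ∈ Up, (2 * ∑ x, (tr ω1 x).elim 0 (fun y => if y = z then (1 : ℝ) else 0)) *
          (tr ω2 (g⁻¹ (h⁻¹ z))).elim 0 (fun _ => 1) := by
      intro ω1 ω2
      have hnn : ∀ z ∈ Up, 0 ≤ (2 * ∑ x, (tr ω1 x).elim 0 (fun y => if y = z then (1 : ℝ) else 0)) *
          (tr ω2 (g⁻¹ (h⁻¹ z))).elim 0 (fun _ => 1) := by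
        intro z _
        apply mul_nonneg
        · apply mul_nonneg (by norm_num)
          refine Finset.sum_nonneg (fun x _ => ?_)
          cases tr ω1 x with
          | none => simp
          | some y => simp only [Option.elim_some]; split_ifs <;> norm_num
        · cases tr ω2 (g⁻¹ (h⁻¹ z)) <;> simp
      by_cases hcase : ∀ x z, tr ω1 x = some z → z ∈ Up → tr ω2 (g⁻¹ (h⁻¹ z)) = none
      · have heq : (fun x => ((tr ω1 (h x)).map ⇑(h⁻¹)).bind (fun z => (tr ω2 (g⁻¹ z)).map g)) =
            (fun x => (compLow Up (tr ω1) (tr ω2) (h x)).map g) := by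
          funext x
          unfold compLow
          cases hx : tr ω1 (h x) with
          | none => rfl
          | some z =>
            simp only [Option.map_some, Option.bind_some]
            by_cases hz : z ∈ Up
            · rw [if_pos hz, hcase _ _ hx hz]
            · rw [if_neg hz]
              have e1 : h⁻¹ z = z := ((mem_GLv lv Up _).1 (hKinv h hh)).1 z hz
              have e2 : g⁻¹ z = z := ((mem_GLv lv Up _).1 (hKinv g hg)).1 z hz
              rw [e1, e2]
        rw [heq, sub_self, nrm_zero]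
        exact Finset.sum_nonneg hnn
      · push Not at hcase
        obtain ⟨x, z, hx, hz, hne⟩ := hcase
        refine le_trans ?_ (Finset.single_le_sum hnn hz)
        have h1 : (tr ω2 (g⁻¹ (h⁻¹ z))).elim (0 : ℝ) (fun _ => 1) = 1 := by
          cases h2 : tr ω2 (g⁻¹ (h⁻¹ z)) with
          | none => exact absurd h2 hne
          | some y => rfl
        rw [h1, mul_one]
        have h2 : (1 : ℝ) ≤ ∑ x, (tr ω1 x).elim 0 (fun y => if y = z then (1 : ℝ) else 0) := by
          refine le_trans ?_ (Finset.single_le_sum (f := fun x => (tr ω1 x).elim 0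
            (fun y => if y = z then (1 : ℝ) else 0)) (fun x _ => ?_) (Finset.mem_univ x))
          · simp [hx]
          · cases tr ω1 x with
            | none => simp
            | some y => simp only [Option.elim_some]; split_ifs <;> norm_num
        refine (nrm_sub_le _ _).trans ?_
        have h3 := nrm_US_le (B := B)
          (fun x => ((tr ω1 (h x)).map ⇑(h⁻¹)).bind (fun z => (tr ω2 (g⁻¹ z)).map g))
        have h4 := nrm_US_le (B := B) (fun x => (compLow Up (tr ω1) (tr ω2) (h x)).map g)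
        linarith
    refine (Ex_mono p hp t1 _ _ (fun ω1 => Ex_mono p hp t2 _ _ (fun ω2 => hpt ω1 ω2))).trans ?_
    apply le_of_eq
    have e1 : ∀ ω1 : List (Sy H), Ex p t2 (fun ω2 => ∑ z ∈ Up,
        (2 * ∑ x, (tr ω1 x).elim 0 (fun y => if y = z then (1 : ℝ) else 0)) *
          (tr ω2 (g⁻¹ (h⁻¹ z))).elim 0 (fun _ => 1)) =
        ∑ z ∈ Up, (2 * Kit p t2 (fun _ => 1) z) • ∑ x, (tr ω1 x).elim 0
          (fun y => if y = z then (1 : ℝ) else 0) := by
      intro ω1
      rw [Ex_sum]
      refine Finset.sum_congr rfl (fun z _ => ?_)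
      have := Ex_smul p t2 (2 * ∑ x, (tr ω1 x).elim 0 (fun y => if y = z then (1 : ℝ) else 0))
        (fun ω2 => (tr ω2 (g⁻¹ (h⁻¹ z))).elim (0 : ℝ) (fun _ => 1))
      simp only [smul_eq_mul] at this ⊢
      rw [this, Ex_tr, hKit _ (hKinv g hg), hKit _ (hKinv h hh)]
      ring
    simp only [e1]
    rw [Ex_sum, hbound, Finset.mul_sum]
    refine Finset.sum_congr rfl (fun z _ => ?_)
    rw [Ex_smul, Ex_sum]
    simp only [Ex_tr]
    have e2 : ∑ x, Kit p t1 (fun y => if y = z then (1 : ℝ) else 0) x =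
        Kit p t1 (fun _ => 1) z := by
      have := Kit_symm p t1 (fun _ => 1) (fun y => if y = z then (1 : ℝ) else 0)
      simp only [one_mul] at this
      rw [this]
      simp
    rw [e2, smul_eq_mul]
    ring
  -- averaging
  have hR : Ex p t1 (fun ω1 => Ex p t2 (fun ω2 =>
      uG B lv Up * US B (compLow Up (tr ω1) (tr ω2)) * uG B lv Up)) =
      ((K.card : ℝ)⁻¹ * (K.card : ℝ)⁻¹) • ∑ g ∈ K, ∑ h ∈ K, Ex p t1 (fun ω1 => Ex p t2 (fun ω2 =>
        US B (fun x => (compLow Up (tr ω1) (tr ω2) (h x)).map g))) := by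
    have e1 : ∀ S : H → Option H, uG B lv Up * US B S * uG B lv Up =
        ((K.card : ℝ)⁻¹ * (K.card : ℝ)⁻¹) • ∑ g ∈ K, ∑ h ∈ K,
          US B (fun x => (S (h x)).map g) := by
      intro S
      unfold uG
      rw [smul_mul_assoc, smul_mul_assoc, mul_smul_comm, smul_smul, Finset.sum_mul,
        Finset.sum_mul]
      congr 1
      refine Finset.sum_congr rfl (fun g _ => ?_)
      rw [Finset.mul_sum]
      exact Finset.sum_congr rfl (fun h _ => US_conj S g h)
    simp only [e1, Ex_smul, Ex_sum]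
  have hc : (0 : ℝ) < K.card := by exact_mod_cast hKpos
  have hLavg : L = ((K.card : ℝ)⁻¹ * (K.card : ℝ)⁻¹) • ∑ _g ∈ K, ∑ _h ∈ K, L := by
    simp only [Finset.sum_const, smul_smul, ← Nat.cast_smul_eq_nsmul ℝ]
    have h2 : ∀ c : ℝ, 0 < c → c⁻¹ * c⁻¹ * (c * c) = 1 := by
      intro c hc; field_simp
    rw [h2 _ hc, one_smul]
  rw [hR]
  nth_rewrite 1 [hLavg]
  rw [← smul_sub, ← Finset.sum_sub_distrib]
  simp only [← Finset.sum_sub_distrib]
  have hc2 : (0 : ℝ) ≤ (K.card : ℝ)⁻¹ * (K.card : ℝ)⁻¹ :=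
    mul_nonneg (inv_nonneg.2 hc.le) (inv_nonneg.2 hc.le)
  rw [nrm_smul, abs_of_nonneg hc2]
  have h1 : nrm (∑ g ∈ K, ∑ h ∈ K, (L - Ex p t1 (fun ω1 => Ex p t2 (fun ω2 =>
      US B (fun x => (compLow Up (tr ω1) (tr ω2) (h x)).map g))))) ≤ K.card * (K.card * bound) := by
    refine (nrm_sum_le _ _).trans ?_
    refine (Finset.sum_le_sum (fun g hg => (nrm_sum_le _ _).trans
      (Finset.sum_le_sum (fun h hh => key g hg h hh)))).trans ?_
    rw [Finset.sum_const, Finset.sum_const, nsmul_eq_mul, nsmul_eq_mul]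
  have h3 : ∀ c b : ℝ, 0 < c → c⁻¹ * c⁻¹ * (c * (c * b)) = b := by
    intro c b hc; field_simp
  calc (K.card : ℝ)⁻¹ * (K.card : ℝ)⁻¹ * _ ≤ (K.card : ℝ)⁻¹ * (K.card : ℝ)⁻¹ *
        (K.card * (K.card * bound)) := mul_le_mul_of_nonneg_left h1 hc2
    _ = bound := h3 _ _ hc

end Pool.Agent.Helper14_CW
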