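import Pool.Agent.Helper14_CW.Half

/-! # Module UBASM of the squad of helper91 for MP_1dbb29_pr -/

set_option autoImplicit false

namespace Pool.Agent.Helper14_CW

open Equiv Pool.Agent.Helper91_CW

section
variable {H : Type} [Fintype H] [DecidableEq H]

/-- the letter weights -/
noncomputable def pW (N : ℕ) (w : H → H → ℝ) (q : H → ℝ) (r : ℝ) : Sy H → ℝ
  | none => r * (N : ℝ) ^ 2 / 2 + 1 - totW N w q r
  | some (Sum.inl (a, b)) => w a b / 2
  | some (Sum.inr v) => N * q v

theorem sum_Sy {M : Type} [AddCommMonoid M] (F : Sy H → M) :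
    ∑ α, F α = F none + (∑ a, ∑ b, F (some (Sum.inl (a, b))) + ∑ v, F (some (Sum.inr v))) := by
  rw [Fintype.sum_option, Fintype.sum_sum_type, Fintype.sum_prod_type]

theorem sum_pW (N : ℕ) (w : H → H → ℝ) (q : H → ℝ) (r : ℝ) : ∑ α, pW N w q r α = 1 := by
  rw [sum_Sy]
  simp only [pW, totW, ← Finset.sum_div, ← Finset.mul_sum]
  ring

theorem pW_nonneg (N : ℕ) (w : H → H → ℝ) (q : H → ℝ) (r : ℝ) (hw : ∀ x y, 0 ≤ w x y)
    (hq : ∀ v, 0 ≤ q v) (hr : 0 ≤ r) (htot : totW N w q r ≤ 1) (α : Sy H) :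
    0 ≤ pW N w q r α := by
  rcases α with _ | ⟨a, b⟩ | v
  · have : 0 ≤ r * (N : ℝ) ^ 2 / 2 := by positivity
    show 0 ≤ r * (N : ℝ) ^ 2 / 2 + 1 - totW N w q r
    linarith
  · exact div_nonneg (hw a b) (by norm_num)
  · exact mul_nonneg (Nat.cast_nonneg N) (hq v)

theorem swap_sum (w : H → H → ℝ) (hsym : ∀ x y, w x y = w y x) (hdiag : ∀ x, w x x = 0)
    (f : H → ℝ) (x : H) :
    ∑ a, ∑ b, w a b * (f (swap a b x) - f x) = 2 * ∑ y, w x y * (f y - f x) := by
  have h1 : ∀ a b, w a b * (f (swap a b x) - f x) =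
      (if a = x then w x b * (f b - f x) else 0) + (if b = x then w a x * (f a - f x) else 0) := by
    intro a b
    by_cases ha : a = x
    · subst ha
      by_cases hb : b = a
      · subst hb; simp [hdiag]
      · simp [hb]
    · by_cases hb : b = x
      · subst hb; simp [ha]
      · rw [swap_apply_of_ne_of_ne (Ne.symm ha) (Ne.symm hb)]; simp [ha, hb]
  simp only [h1, Finset.sum_add_distrib]
  have h2 : ∑ a, ∑ b, (if a = x then w x b * (f b - f x) else 0) = ∑ y, w x y * (f y - f x) := by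
    rw [Finset.sum_comm]
    simp
  have h3 : ∑ a, ∑ b, (if b = x then w a x * (f a - f x) else 0) = ∑ y, w x y * (f y - f x) := by
    simp [hsym x]
  rw [h2, h3, two_mul]

theorem Kop_pW (N : ℕ) (w : H → H → ℝ) (q : H → ℝ) (r : ℝ) (hsym : ∀ x y, w x y = w y x)
    (hdiag : ∀ x, w x x = 0) : Kop (pW N w q r) = Kw N w q := by
  funext f x
  unfold Kop Kw
  rw [sum_Sy]
  have h1 : ∑ a, ∑ b, pW N w q r (some (Sum.inl (a, b))) *
      (act (some (Sum.inl (a, b))) x).elim 0 f =
      (1 / 2) * (∑ a, ∑ b, w a b) * f x + ∑ y, w x y * (f y - f x) := by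
    have h2 := swap_sum w hsym hdiag f x
    have h3 : ∑ a, ∑ b, pW N w q r (some (Sum.inl (a, b))) *
        (act (some (Sum.inl (a, b))) x).elim 0 f =
        (1 / 2) * ∑ a, ∑ b, (w a b * (f (swap a b x) - f x) + w a b * f x) := by
      simp only [pW, act, Option.elim_some, Finset.mul_sum]
      exact Finset.sum_congr rfl (fun a _ => Finset.sum_congr rfl (fun b _ => by ring))
    rw [h3]
    simp only [Finset.sum_add_distrib]
    rw [h2]
    simp only [← Finset.sum_mul]
    ring
  have h4 : ∑ v, pW N w q r (some (Sum.inr v)) * (act (some (Sum.inr v)) x).elim 0 f =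
      N * (∑ v, q v) * f x - N * q x * f x := by
    have h5 : ∀ v, pW N w q r (some (Sum.inr v)) * (act (some (Sum.inr v)) x).elim 0 f =
        N * q v * f x - (if v = x then N * q x * f x else 0) := by
      intro v
      simp only [pW, act]
      by_cases hv : x = v
      · subst hv; simp
      · rw [if_neg hv, if_neg (Ne.symm hv)]; simp
    simp only [h5, Finset.sum_sub_distrib, Finset.sum_ite_eq', Finset.mem_univ, if_true]
    rw [Finset.mul_sum, Finset.sum_mul]
  rw [h1, h4]
  have h6 : ∑ y, w x y * (f y - f x) = ∑ y, w x y * f y - (∑ y, w x y) * f x := by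
    rw [Finset.sum_mul, ← Finset.sum_sub_distrib]
    exact Finset.sum_congr rfl (fun y _ => by ring)
  rw [h6]
  simp only [pW, act, Option.elim_some, totW]
  ring

theorem pW_inv (N : ℕ) (w : H → H → ℝ) (q : H → ℝ) (r : ℝ) (hsym : ∀ x y, w x y = w y x)
    (hdiag : ∀ x, w x x = 0) (x x' : H) (hq : q x = q x')
    (hw : ∀ y, y ≠ x → y ≠ x' → w x y = w x' y) (α : Sy H) :
    pW N w q r (smap (swap x x') α) = pW N w q r α := by
  rcases α with _ | ⟨a, b⟩ | v
  · rfl
  · show w (swap x x' a) (swap x x' b) / 2 = w a b / 2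
    congr 1
    by_cases ha : a = x
    · subst ha
      rw [swap_apply_left]
      by_cases hb : b = a
      · subst hb; rw [swap_apply_left, hdiag, hdiag]
      · by_cases hb' : b = x'
        · subst hb'; rw [swap_apply_right, hsym]
        · rw [swap_apply_of_ne_of_ne hb hb', hw b hb hb']
    · by_cases ha' : a = x'
      · subst ha'
        rw [swap_apply_right]
        by_cases hb : b = x
        · subst hb; rw [swap_apply_left, hsym]
        · by_cases hb' : b = a
          · subst hb'; rw [swap_apply_right, hdiag, hdiag]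
          · rw [swap_apply_of_ne_of_ne hb hb', hw b hb hb']
      · rw [swap_apply_of_ne_of_ne ha ha']
        by_cases hb : b = x
        · subst hb; rw [swap_apply_left, hsym a x', hsym a b, hw a ha ha']
        · by_cases hb' : b = x'
          · subst hb'; rw [swap_apply_right, hsym a x, hsym a b, hw a ha ha']
          · rw [swap_apply_of_ne_of_ne hb hb']
  · show (N : ℝ) * q (swap x x' v) = N * q v
    congr 1
    by_cases hv : v = x
    · subst hv; rw [swap_apply_left, hq]
    · by_cases hv' : v = x'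
      · subst hv'; rw [swap_apply_right, hq]
      · rw [swap_apply_of_ne_of_ne hv hv']

variable (B : Type) [Fintype B] [DecidableEq B]

theorem pow_eq_Ex (p : Sy H → ℝ) (t : ℕ) :
    (∑ α, p α • elt B α) ^ t = Ex p t (wel B) := by
  induction t with
  | zero => rfl
  | succ t ih =>
    rw [pow_succ, ih]
    simp only [Ex, wel]
    rw [Finset.mul_sum]
    refine Finset.sum_congr rfl (fun α _ => ?_)
    rw [mul_smul_comm]
    congr 1
    exact Ex_map (LinearMap.mulRight ℝ (elt B α)) p t (wel B)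

theorem EB_Ex (p : Sy H → ℝ) (t : ℕ) :
    EB H B * Ex p t (wel B) = Ex p t (fun ω => EB H B * wel B ω) :=
  Ex_map (LinearMap.mulLeft ℝ (EB H B)) p t (wel B)

/-- the part of the step outside the bulk -/
noncomputable def nuW (w : H → H → ℝ) (q : H → ℝ) (r : ℝ) : Alg (PV H B) :=
  (1 - totW (Fintype.card B) w q r) • (1 : Alg (PV H B)) +
    (1 / 2 : ℝ) • ∑ x, ∑ y, w x y • pt (swap (Sum.inl x) (Sum.inl y)) +
    ∑ v, q v • ∑ b : B, pt (swap (Sum.inl v) (Sum.inr b))

theorem stepW_eq (hB : 1 ≤ Fintype.card B) (w : H → H → ℝ) (q : H → ℝ) (r : ℝ) :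
    stepW B w q r = (r * (Fintype.card B : ℝ) ^ 2 / 2) • bro H B + nuW B w q r := by
  have hN : (Fintype.card B : ℝ) ≠ 0 := by
    have : (1 : ℝ) ≤ Fintype.card B := by exact_mod_cast hB
    linarith
  unfold stepW nuW bro
  rw [smul_smul, add_comm]
  congr 2
  field_simp

theorem sum_elt (hB : 1 ≤ Fintype.card B) (w : H → H → ℝ) (q : H → ℝ) (r : ℝ) :
    ∑ α, pW (Fintype.card B) w q r α • elt B α =
      (r * (Fintype.card B : ℝ) ^ 2 / 2) • (1 : Alg (PV H B)) + nuW B w q r := by
  have hN : (Fintype.card B : ℝ) ≠ 0 := by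
    have : (1 : ℝ) ≤ Fintype.card B := by exact_mod_cast hB
    linarith
  rw [sum_Sy]
  unfold nuW
  have h1 : ∀ v : H, pW (Fintype.card B) w q r (some (Sum.inr v)) •
      elt B (some (Sum.inr v)) = q v • ∑ b : B, pt (swap (Sum.inl v) (Sum.inr b)) := by
    intro v
    simp only [pW, elt, kap, smul_smul]
    congr 1
    field_simp
  have h2 : ∑ a, ∑ b, pW (Fintype.card B) w q r (some (Sum.inl (a, b))) •
      elt B (some (Sum.inl (a, b))) =
      (1 / 2 : ℝ) • ∑ x, ∑ y, w x y • (pt (swap (Sum.inl x) (Sum.inl y)) : Alg (PV H B)) := by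
    simp only [Finset.smul_sum, smul_smul, pW, elt]
    refine Finset.sum_congr rfl (fun a _ => Finset.sum_congr rfl (fun b _ => ?_))
    congr 1
    ring
  simp only [h1]
  rw [h2]
  simp only [pW, elt]
  rw [add_sub_assoc, add_smul]
  abel

theorem nrm_nuW (hB : 1 ≤ Fintype.card B) (w : H → H → ℝ) (q : H → ℝ) (r : ℝ)
    (hw : ∀ x y, 0 ≤ w x y) (hq : ∀ v, 0 ≤ q v)
    (htot : totW (Fintype.card B) w q r ≤ 1) :
    nrm (nuW B w q r) ≤ 1 - r * (Fintype.card B : ℝ) ^ 2 / 2 := by
  unfold nuW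
  have h1 : nrm ((1 - totW (Fintype.card B) w q r) • (1 : Alg (PV H B))) =
      1 - totW (Fintype.card B) w q r := by
    rw [nrm_smul, abs_of_nonneg (by linarith), ← pt_one, nrm_pt, mul_one]
  have h2 : nrm ((1 / 2 : ℝ) • ∑ x, ∑ y, w x y •
      (pt (swap (Sum.inl x) (Sum.inl y)) : Alg (PV H B))) ≤ 1 / 2 * ∑ x, ∑ y, w x y := by
    rw [nrm_smul, abs_of_nonneg (by norm_num)]
    apply mul_le_mul_of_nonneg_left _ (by norm_num)
    refine (nrm_sum_le _ _).trans (Finset.sum_le_sum (fun x _ => ?_))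
    refine (nrm_sum_le _ _).trans (Finset.sum_le_sum (fun y _ => ?_))
    rw [nrm_smul, abs_of_nonneg (hw x y), nrm_pt, mul_one]
  have h3 : nrm (∑ v, q v • ∑ b : B, (pt (swap (Sum.inl v) (Sum.inr b)) : Alg (PV H B))) ≤
      Fintype.card B * ∑ v, q v := by
    rw [Finset.mul_sum]
    refine (nrm_sum_le _ _).trans (Finset.sum_le_sum (fun v _ => ?_))
    rw [nrm_smul, abs_of_nonneg (hq v), mul_comm]
    apply mul_le_mul_of_nonneg_right _ (hq v)
    refine (nrm_sum_le _ _).trans ?_
    simp [nrm_pt]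
  refine (nrm_add_le _ _).trans ?_
  have h4 := nrm_add_le ((1 - totW (Fintype.card B) w q r) • (1 : Alg (PV H B)))
    ((1 / 2 : ℝ) • ∑ x, ∑ y, w x y • (pt (swap (Sum.inl x) (Sum.inl y)) : Alg (PV H B)))
  have h5 : totW (Fintype.card B) w q r = (1 / 2) * ∑ x, ∑ y, w x y +
      Fintype.card B * ∑ v, q v + r * (Fintype.card B : ℝ) ^ 2 / 2 := rfl
  linarith

theorem nuW_comm (w : H → H → ℝ) (q : H → ℝ) (r : ℝ) (τ : Perm B) :
    Commute (nuW B w q r) (pt (Perm.sumCongr (1 : Perm H) τ)) := by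
  set σ : PV H B := Perm.sumCongr (1 : Perm H) τ with hσ
  unfold nuW
  apply Commute.add_left
  · apply Commute.add_left
    · exact (Commute.one_left _).smul_left _
    · apply Commute.smul_left
      apply Commute.sum_left
      intro x _
      apply Commute.sum_left
      intro y _
      apply Commute.smul_left
      show pt _ * pt _ = pt _ * pt _
      rw [pt_mul_pt, pt_mul_pt, Equiv.mul_swap_eq_swap_mul]
      rfl
  · apply Commute.sum_left
    intro v _
    apply Commute.smul_left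
    show (∑ b : B, pt _) * pt _ = pt _ * ∑ b : B, pt _
    rw [Finset.sum_mul, Finset.mul_sum]
    simp only [pt_mul_pt]
    rw [← Equiv.sum_comp τ]
    refine Finset.sum_congr rfl (fun b _ => ?_)
    rw [Equiv.mul_swap_eq_swap_mul]
    rfl

theorem nuW_EB (w : H → H → ℝ) (q : H → ℝ) (r : ℝ) : Commute (nuW B w q r) (EB H B) := by
  unfold EB
  apply Commute.smul_right
  apply Commute.sum_right
  intro τ _
  exact nuW_comm B w q r τ

theorem nuW_bro (w : H → H → ℝ) (q : H → ℝ) (r : ℝ) : Commute (nuW B w q r) (bro H B) := by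
  unfold bro
  apply Commute.smul_right
  apply Commute.sum_right
  intro b _
  apply Commute.sum_right
  intro b' _
  rw [← Perm.sumCongr_one_swap]
  exact nuW_comm B w q r (swap b b')

end

/-- Module UBASM. -/
theorem ubasm : UBAssemblyStatement := by
  classical
  intro hBro hRed hU2 hExp hU3
  intro H B _ _ _ _ hB hHB w q r hw hsym hdiag hq hr htot lv Up hUp r0 A hr0 hA t1 t2
  set N : ℕ := Fintype.card B with hN
  set T := t1 + t2 with hT
  have hN1 : (1 : ℝ) ≤ N := by exact_mod_cast hB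
  have hN0 : (0 : ℝ) < N := by linarith
  set p := pW N w q r with hp
  have hp0 : ∀ α, 0 ≤ p α := pW_nonneg N w q r hw hq hr htot
  have hpsum : ∑ α, p α = 1 := sum_pW N w q r
  have hK : Kop p = Kw N w q := Kop_pW N w q r hsym hdiag
  have hKit : ∀ t f, Kit p t f = (Kw N w q)^[t] f := by
    intro t f; unfold Kit; rw [hK]
  have hkw : ∀ s z, Kit p s (fun _ => 1) z = kw N w q s z := by
    intro s z; rw [hKit]; rfl
  have hmw : ∀ s, Mt p s = mw N w q s := by
    intro s
    unfold Mt mw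
    exact Finset.sum_congr rfl (fun z _ => hkw s z)
  -- first part
  have s1 : nrm (stepW B w q r ^ T - EB H B * Ex p T (wel B)) ≤
      2 * (N : ℝ) ^ 2 * (1 - r * N / 2) ^ T := by
    have h1 := hRed H B (nuW B w q r) (r * (N : ℝ) ^ 2 / 2) (2 * (N : ℝ) ^ 2) (1 - 1 / (N : ℝ))
      (by positivity) (by positivity) (by
        rw [sub_nonneg, div_le_one hN0]; exact hN1) (nrm_nuW B hB w q r hw hq htot)
      (nuW_bro B w q r) (nuW_EB B w q r) (hBro H B hB) T
    rw [← stepW_eq B hB, ← sum_elt B hB, pow_eq_Ex] at h1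
    refine h1.trans (le_of_eq ?_)
    congr 2
    field_simp
    ring
  have s2 : nrm (EB H B * Ex p T (wel B) - Ex p T (fun ω => US B (tr ω))) ≤
      4 * ∑ s ∈ Finset.range T, (∑ v, q v * kw N w q s v) * mw N w q (T - 1 - s) +
        8 * (Fintype.card H : ℝ) / N * (∑ v, q v) *
          ∑ s ∈ Finset.range T, mw N w q (T - 1 - s) := by
    rw [EB_Ex, ← Ex_sub]
    refine (nrm_Ex_le p hp0 T _).trans ?_
    refine (Ex_mono p hp0 T _ _ (fun ω => hU2 H B hB (by omega) ω)).trans ?_
    have h1 := Ex_smul p T 4 (fun ω => ∑ x : H, if tr ω x = none then Lf (N : ℝ) ω x else 0)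
    simp only [smul_eq_mul] at h1
    rw [← hN, h1]
    have h2 := hExp H N hHB hB p hp0 hpsum.le T
    have h3 := mul_le_mul_of_nonneg_left h2 (show (0 : ℝ) ≤ 4 by norm_num)
    refine h3.trans (le_of_eq ?_)
    simp only [hkw, hmw]
    have e1 : ∀ v, p (some (Sum.inr v)) = N * q v := fun v => rfl
    simp only [e1, mul_assoc, ← Finset.mul_sum]
    field_simp
    ring
  have s3 : nrm (Ex p T (fun ω => US B (tr ω)) - UU H B) ≤
      2 * ((∑ x, ∑ y, if GoodPair lv Up r0 A x y then 0 else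
              (Kw N w q)^[T] (fun z => if z = y then 1 else 0) x) +
            (∑ z ∈ Up, kw N w q t1 z * kw N w q t2 z) +
            (r0 : ℝ)⁻¹ * mw N w q T) +
        2 * Real.sqrt ((Fintype.card H + N : ℕ) / A) * mw N w q T := by
    have h1 := hU3 H B hB p hp0 hpsum.le lv Up (fun x hx x' hx' hlv α =>
      pW_inv N w q r hsym hdiag x x' (hUp x hx x' hx' hlv).1 (hUp x hx x' hx' hlv).2 α)
      r0 A hr0 hA t1 t2
    rw [hpsum, one_pow, one_smul] at h1
    refine h1.trans (le_of_eq ?_)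
    simp only [hkw, hmw, hKit]
    rfl
  have h1 := nrm_sub_le_sub (stepW B w q r ^ T) (EB H B * Ex p T (wel B)) (UU H B)
  have h2 := nrm_sub_le_sub (EB H B * Ex p T (wel B)) (Ex p T (fun ω => US B (tr ω))) (UU H B)
  refine h1.trans ?_
  refine (add_le_add s1 (h2.trans (add_le_add s2 s3))).trans (le_of_eq ?_)
  ring

end Pool.Agent.Helper14_CW
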